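import Pool.Agent.H65.CF.T7

/-!
Class numbers and Euler products in mean square, row HSY.
-/

set_option autoImplicit false

open MeasureTheory Set Filter NumberField
open scoped Real nonZeroDivisors

namespace Pool.Agent.H41.CFH

open Pool.Agent.H31.CN Pool.Agent.H65.AD Pool.Agent.H65.CF

/-- the sum of `e^(-m/T)/m` -/
lemma hasSum_exp_div (T : ℝ) (hT : 0 < T) : ∃ s : ℝ, s ≤ Real.log (T + 1) ∧
    HasSum (fun m : ℕ => Real.exp (-(((m : ℝ) + 1) / T)) / ((m : ℝ) + 1)) s := by
  have hT' : 0 < 1 / T := by positivity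
  have hx0 : 0 < Real.exp (-(1 / T)) := Real.exp_pos _
  have hx1 : Real.exp (-(1 / T)) < 1 := by
    rw [Real.exp_lt_one_iff]
    linarith
  have h1 := Real.hasSum_pow_div_log_of_abs_lt_one (x := Real.exp (-(1 / T)))
    (by rw [abs_of_pos hx0]; exact hx1)
  refine ⟨_, ?_, h1.congr_fun ?_⟩
  · have h2 : 1 / (T + 1) ≤ 1 - Real.exp (-(1 / T)) := by
      have h3 : 1 + 1 / T ≤ Real.exp (1 / T) := by
        have := Real.add_one_le_exp (1 / T)
        linarith
      have h4 : Real.exp (-(1 / T)) ≤ (1 + 1 / T)⁻¹ := by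
        rw [Real.exp_neg]
        exact inv_anti₀ (by positivity) h3
      have h5 : 1 - (1 + 1 / T)⁻¹ = 1 / (T + 1) := by
        field_simp
        ring
      linarith
    rw [← Real.log_inv]
    refine Real.log_le_log (inv_pos.2 (by linarith)) ?_
    rw [inv_le_comm₀ (by linarith) (by positivity)]
    rw [← one_div]
    exact h2
  · intro m
    rw [← Real.exp_nat_mul]
    congr 2
    push_cast
    ring

/-- **Row HSY.** -/
theorem pf_HSY (hTHC : T_THC) (hLMB : T_LMB) (hTDS : T_TDS) (hGQB : T_GQB) (hCHM : T_CHM) :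
    T_HSY := by
  obtain ⟨C₂, hC₂, hT⟩ := hTDS
  obtain ⟨-, -, C₁, hC₁, hG⟩ := hGQB
  obtain ⟨-, hch, -, -, haD⟩ := hCHM
  -- the two error terms
  have key : ∀ (D : ℕ) (K : Type) [Field K] [NumberField K], 4 < D → Fd D →
      Module.finrank ℚ K = 2 → discr K = -(D : ℤ) → ∀ y : ℝ, 2 ≤ y → y ≤ Real.sqrt D →
      |SG gq D (y * Real.sqrt D)| ≤ 2 * C₁ * Real.log D ∧
      |(classNumber K : ℝ) / Real.sqrt D - SG gq D (y * Real.sqrt D) / π| ≤
        (2 * (2 * C₁ + 4 * C₂)) * Real.log D / y := by
    intro D K _ _ hD hFd hfr hdi y hy hyD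
    have hDr : (5 : ℝ) ≤ D := by exact_mod_cast hD
    have hsD : 0 < Real.sqrt D := Real.sqrt_pos.2 (by linarith)
    have hsq : Real.sqrt D * Real.sqrt D = D := Real.mul_self_sqrt (by linarith)
    have hlog1 : 1 ≤ Real.log D := by
      rw [Real.le_log_iff_exp_le (by linarith)]
      have := Real.exp_one_lt_d9
      linarith
    have hy0 : 0 < y := by linarith
    set T := y * Real.sqrt D with hTdef
    have hTpos : 0 < T := by positivity
    have hTD : T ≤ D := by
      have h0 := mul_le_mul_of_nonneg_right hyD hsD.le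
      rw [hsq] at h0
      exact h0
    -- SG
    have h1 : |SG gq D T| ≤ C₁ * Real.log (T + 1) := by
      obtain ⟨s, hs, hsum⟩ := hasSum_exp_div T hTpos
      refine le_trans ?_ (mul_le_mul_of_nonneg_left hs hC₁.le)
      rw [← Real.norm_eq_abs]
      refine tsum_of_norm_bounded (hsum.mul_left C₁) fun m => ?_
      have hm : (0 : ℝ) < (m : ℝ) + 1 := by positivity
      rw [norm_mul, norm_div, Real.norm_eq_abs, Real.norm_eq_abs, Real.norm_eq_abs,
        abs_of_pos hm]
      have h2 := (hG (((m : ℝ) + 1) / T) (by positivity)).1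
      have h3 := hch (m + 1) D
      calc |chm (m + 1) D| / ((m : ℝ) + 1) * |gq (((m : ℝ) + 1) / T)|
          ≤ 1 / ((m : ℝ) + 1) * (C₁ * Real.exp (-(((m : ℝ) + 1) / T))) := by
            refine mul_le_mul ?_ h2 (abs_nonneg _) (by positivity)
            exact div_le_div_of_nonneg_right h3 hm.le
        _ = C₁ * (Real.exp (-(((m : ℝ) + 1) / T)) / ((m : ℝ) + 1)) := by ring
    have h1' : |SG gq D T| ≤ 2 * C₁ * Real.log D := by
      refine h1.trans ?_
      have h2 : Real.log (T + 1) ≤ 2 * Real.log D := by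
        have h3 : Real.log (T + 1) ≤ Real.log ((D : ℝ) * D) := by
          refine Real.log_le_log (by linarith) ?_
          nlinarith
        rw [Real.log_mul (by linarith) (by linarith)] at h3
        linarith
      nlinarith
    refine ⟨h1', ?_⟩
    -- S2
    set S2 : ℝ := ∑' n : ℕ, aD (n + 1) D *
        Real.exp (-(2 * π * ((n : ℝ) + 1) * y / Real.sqrt D)) with hS2
    have hZ1 : 1 ≤ Real.sqrt D / y := by
      rw [le_div_iff₀ hy0]
      linarith
    obtain ⟨hTs, hTle⟩ := hT (Real.sqrt D / y) hZ1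
    have h2 : |S2| ≤ C₂ * (Real.sqrt D / y) * (1 + Real.log (Real.sqrt D / y)) := by
      refine le_trans ?_ hTle
      rw [← Real.norm_eq_abs]
      refine tsum_of_norm_bounded hTs.hasSum fun n => ?_
      rw [norm_mul, Real.norm_eq_abs, Real.norm_eq_abs, abs_of_pos (Real.exp_pos _)]
      refine mul_le_mul (haD (n + 1) D) ?_ (Real.exp_pos _).le (Nat.cast_nonneg _)
      rw [Real.exp_le_exp, neg_le_neg_iff]
      have h3 : ((n : ℝ) + 1) / (Real.sqrt D / y) = ((n : ℝ) + 1) * y / Real.sqrt D := by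
        field_simp
      rw [h3]
      refine div_le_div_of_nonneg_right ?_ hsD.le
      have h4 : (0 : ℝ) < ((n : ℝ) + 1) * y := by positivity
      have h5 : (1 : ℝ) ≤ 2 * π := by
        have := Real.pi_gt_three
        linarith
      nlinarith
    have h2' : |S2| ≤ C₂ * (Real.sqrt D / y) * (2 * Real.log D) := by
      refine h2.trans (mul_le_mul_of_nonneg_left ?_ (by positivity))
      have h3 : Real.log (Real.sqrt D / y) ≤ Real.log D := by
        refine Real.log_le_log (by positivity) ?_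
        rw [div_le_iff₀ hy0]
        nlinarith
      linarith
    -- the identity
    have h3 := hTHC D K hD hFd hfr hdi y hy0
    have h4 := (hLMB D T hTpos).2.2
    rw [← hTdef, h4, ← hS2] at h3
    have hpi := Real.pi_pos
    have hy1 : 0 < y - 1 := by linarith
    have h5 : (classNumber K : ℝ) / Real.sqrt D - SG gq D T / π =
        SG gq D T / (π * (y - 1)) - 2 * y * S2 / (Real.sqrt D * (y - 1)) := by
      have h6 : (classNumber K : ℝ) = (T / π * SG gq D T - 2 * y * S2) / (y - 1) := by
        rw [eq_div_iff hy1.ne']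
        have h7 : 2 * (T / (2 * π) * SG gq D T) = T / π * SG gq D T := by
          field_simp
        linarith
      rw [h6, hTdef]
      field_simp
      ring
    rw [h5]
    refine (abs_sub _ _).trans ?_
    rw [abs_div, abs_div, abs_of_pos (mul_pos hpi hy1), abs_of_pos (mul_pos hsD hy1), abs_mul,
      abs_mul, abs_of_pos hy0, abs_of_pos (zero_lt_two' ℝ)]
    have h8 : |SG gq D T| / (π * (y - 1)) ≤ 2 * C₁ * Real.log D / (y - 1) := by
      refine div_le_div₀ (by positivity) h1' hy1 ?_
      have := Real.pi_gt_three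
      nlinarith
    have h9 : 2 * y * |S2| / (Real.sqrt D * (y - 1)) ≤ 4 * C₂ * Real.log D / (y - 1) := by
      rw [div_le_div_iff₀ (mul_pos hsD hy1) hy1]
      have h10 : 2 * y * |S2| ≤ 2 * y * (C₂ * (Real.sqrt D / y) * (2 * Real.log D)) :=
        mul_le_mul_of_nonneg_left h2' (by positivity)
      have h11 : 2 * y * (C₂ * (Real.sqrt D / y) * (2 * Real.log D)) =
          4 * C₂ * Real.log D * Real.sqrt D := by
        field_simp
        ring
      rw [h11] at h10
      calc 2 * y * |S2| * (y - 1) ≤ 4 * C₂ * Real.log D * Real.sqrt D * (y - 1) :=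
            mul_le_mul_of_nonneg_right h10 hy1.le
        _ = 4 * C₂ * Real.log D * (Real.sqrt D * (y - 1)) := by ring
    have h12 : 2 * C₁ * Real.log D / (y - 1) + 4 * C₂ * Real.log D / (y - 1) ≤
        (2 * (2 * C₁ + 4 * C₂)) * Real.log D / y := by
      rw [← add_div, div_le_div_iff₀ hy1 hy0]
      have h13 : 0 ≤ (2 * C₁ + 4 * C₂) * Real.log D := by positivity
      nlinarith
    linarith
  refine ⟨2 * (2 * (2 * C₁ + 4 * C₂) + 2 * C₁), by positivity, fun D K _ _ hD hFd hfr hdi y hy hyD =>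
    ⟨?_, ?_⟩⟩
  · obtain ⟨h1, h2⟩ := key D K hD hFd hfr hdi y hy hyD
    refine h2.trans ?_
    have hDr : (5 : ℝ) ≤ D := by exact_mod_cast hD
    have hlog : 0 ≤ Real.log D := Real.log_nonneg (by linarith)
    refine div_le_div_of_nonneg_right ?_ (by linarith)
    nlinarith
  · have hDr : (5 : ℝ) ≤ D := by exact_mod_cast hD
    have hsD : 0 < Real.sqrt D := Real.sqrt_pos.2 (by linarith)
    have hsq : Real.sqrt D * Real.sqrt D = D := Real.mul_self_sqrt (by linarith)
    have h2s : (2 : ℝ) ≤ Real.sqrt D := by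
      rw [Real.le_sqrt' (by norm_num : (0 : ℝ) < 2)]
      linarith
    obtain ⟨h1, h2⟩ := key D K hD hFd hfr hdi 2 le_rfl h2s
    have hlog : 0 ≤ Real.log D := Real.log_nonneg (by linarith)
    have hlogs : Real.log D ≤ 2 * Real.sqrt D := by
      have h3 : Real.log D = 2 * Real.log (Real.sqrt D) := by
        rw [Real.log_sqrt (by linarith)]
        ring
      have h4 := Real.log_le_sub_one_of_pos hsD
      linarith
    have h3 := (abs_le.1 h2).2
    have h4 : SG gq D (2 * Real.sqrt D) / π ≤ 2 * C₁ * Real.log D := by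
      have hpi := Real.pi_gt_three
      rw [div_le_iff₀ Real.pi_pos]
      have h5 := (abs_le.1 h1).2
      have h6 : 0 ≤ 2 * C₁ * Real.log D := by positivity
      nlinarith
    have h5 : (classNumber K : ℝ) / Real.sqrt D ≤
        (2 * (2 * C₁ + 4 * C₂) + 2 * C₁) * Real.log D := by
      have h6 : (2 * (2 * C₁ + 4 * C₂)) * Real.log D / 2 ≤
          (2 * (2 * C₁ + 4 * C₂)) * Real.log D := by
        have : 0 ≤ (2 * (2 * C₁ + 4 * C₂)) * Real.log D := by positivity
        linarith
      nlinarith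
    rw [div_le_iff₀ hsD] at h5
    refine h5.trans ?_
    calc (2 * (2 * C₁ + 4 * C₂) + 2 * C₁) * Real.log D * Real.sqrt D
        ≤ (2 * (2 * C₁ + 4 * C₂) + 2 * C₁) * (2 * Real.sqrt D) * Real.sqrt D := by
          refine mul_le_mul_of_nonneg_right (mul_le_mul_of_nonneg_left hlogs (by positivity)) hsD.le
      _ = 2 * (2 * (2 * C₁ + 4 * C₂) + 2 * C₁) * (Real.sqrt D * Real.sqrt D) := by ring
      _ = _ := by rw [hsq]

end Pool.Agent.H41.CFH
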