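import Pool.Agent.H65.CF.T7

/-!
Class numbers and Euler products in mean square, row HUP.
-/

set_option autoImplicit false

open MeasureTheory Set Filter NumberField
open scoped Real nonZeroDivisors

namespace Pool.Agent.H41.CFH

open Pool.Agent.H31.CN Pool.Agent.H65.AD Pool.Agent.H65.CF

lemma mem_fd {Y : ℝ} {D : ℕ} (h : D ∈ fd Y) (hY : 0 ≤ Y) : 4 < D ∧ (D : ℝ) ≤ Y ∧ Fd D := by
  classical
  unfold fd at h
  rw [Finset.mem_filter, Finset.mem_Icc] at h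
  exact ⟨by omega, (Nat.le_floor_iff hY).1 h.1.2, h.2⟩

lemma card_fd {Y : ℝ} (hY : 0 ≤ Y) : ((fd Y).card : ℝ) ≤ Y := by
  classical
  have h1 : (fd Y).card ≤ ⌊Y⌋₊ := by
    unfold fd
    refine (Finset.card_filter_le _ _).trans ?_
    rw [Nat.card_Icc]
    omega
  exact (Nat.cast_le.2 h1).trans (Nat.floor_le hY)

/-- **Row HUP.** -/
theorem pf_HUP (hHLQ : T_HLQ) (hHSY : T_HSY) (hLRB : T_LRB) : T_HUP := by
  obtain ⟨C, hC, hQ⟩ := hHLQ
  obtain ⟨C₁, hC₁, hS⟩ := hHSY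
  obtain ⟨c, hc, hL⟩ := hLRB
  obtain ⟨Y₀, hY₀⟩ := hQ 2 le_rfl
  have hcl : ∀ (D : ℕ) (K : Type) [Field K] [NumberField K], 4 < D → Fd D →
      Module.finrank ℚ K = 2 → discr K = -(D : ℤ) → (classNumber K : ℝ) ≤ C₁ * D := by
    intro D K _ _ hD hF h1 h2
    refine (hS D K hD hF h1 h2 2 le_rfl ?_).2
    rw [Real.le_sqrt' (by norm_num : (0 : ℝ) < 2)]
    have : (5 : ℝ) ≤ D := by exact_mod_cast hD
    linarith
  set A₁ : ℝ := C * Real.log ((2 : ℕ) : ℝ) ^ 2 / ((2 : ℕ) : ℝ) with hA₁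
  set A₂ : ℝ := c⁻¹ * Real.log ((2 : ℕ) : ℝ) with hA₂
  have hlog2 : 0 < Real.log ((2 : ℕ) : ℝ) := Real.log_pos (by norm_num)
  have hA₁0 : 0 ≤ A₁ := by positivity
  have hA₂0 : 0 ≤ A₂ := by positivity
  have hLR : ∀ D, (LR 2 D / π) ^ 2 ≤ A₂ ^ 2 := by
    intro D
    obtain ⟨h1, h2⟩ := hL 2 D le_rfl
    have h3 : 0 ≤ LR 2 D := le_trans (by positivity) h1
    have h4 : 0 ≤ LR 2 D / π := by positivity
    refine pow_le_pow_left₀ h4 ?_ 2
    rw [div_le_iff₀ Real.pi_pos]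
    have := Real.pi_gt_three
    nlinarith
  set B : ℝ := (2 * A₁ + 2 * A₂ ^ 2) + C₁ ^ 2 * |Y₀| + 1 with hB
  have hB0 : 0 < B := by positivity
  have h2nd : ∀ Y : ℝ, 1 ≤ Y → ∀ (K : ℕ → Type) [∀ D, Field (K D)] [∀ D, NumberField (K D)],
      (∀ D ∈ fd Y, Module.finrank ℚ (K D) = 2 ∧ discr (K D) = -(D : ℤ)) →
      ∑ D ∈ fd Y, (classNumber (K D) : ℝ) ^ 2 ≤ B * Y ^ 2 := by
    intro Y hY K _ _ hK
    have hY0 : 0 ≤ Y := by linarith
    rcases le_or_gt Y₀ Y with h | h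
    · have h1 := hY₀ Y h K hK
      have h2 : ∀ D ∈ fd Y, (classNumber (K D) : ℝ) ^ 2 ≤
          Y * (2 * ((classNumber (K D) : ℝ) / Real.sqrt D - LR 2 D / π) ^ 2 + 2 * A₂ ^ 2) := by
        intro D hD
        obtain ⟨h3, h4, h5⟩ := mem_fd hD hY0
        have hDr : (0 : ℝ) < D := by
          have : (4 : ℝ) < D := by exact_mod_cast h3
          linarith
        have hsD : 0 < Real.sqrt D := Real.sqrt_pos.2 hDr
        have hsq : Real.sqrt D ^ 2 = D := Real.sq_sqrt hDr.le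
        have h6 : (classNumber (K D) : ℝ) ^ 2 =
            D * ((classNumber (K D) : ℝ) / Real.sqrt D) ^ 2 := by
          rw [div_pow, hsq]
          field_simp
        rw [h6]
        refine mul_le_mul h4 ?_ (sq_nonneg _) hY0
        have h7 := hLR D
        nlinarith [sq_nonneg ((classNumber (K D) : ℝ) / Real.sqrt D - 2 * (LR 2 D / π))]
      refine (Finset.sum_le_sum h2).trans ?_
      rw [← Finset.mul_sum, Finset.sum_add_distrib, ← Finset.mul_sum, Finset.sum_const,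
        nsmul_eq_mul]
      have h3 : 2 * ∑ D ∈ fd Y, ((classNumber (K D) : ℝ) / Real.sqrt D - LR 2 D / π) ^ 2 +
          ((fd Y).card : ℝ) * (2 * A₂ ^ 2) ≤ (2 * A₁ + 2 * A₂ ^ 2) * Y := by
        have h4 := mul_le_mul_of_nonneg_right (card_fd hY0) (show (0 : ℝ) ≤ 2 * A₂ ^ 2 by positivity)
        linarith
      calc _ ≤ Y * ((2 * A₁ + 2 * A₂ ^ 2) * Y) := mul_le_mul_of_nonneg_left h3 hY0
        _ = (2 * A₁ + 2 * A₂ ^ 2) * Y ^ 2 := by ring
        _ ≤ B * Y ^ 2 := by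
            refine mul_le_mul_of_nonneg_right ?_ (sq_nonneg Y)
            have : 0 ≤ C₁ ^ 2 * |Y₀| := by positivity
            linarith
    · have h1 : ∀ D ∈ fd Y, (classNumber (K D) : ℝ) ^ 2 ≤ C₁ ^ 2 * Y ^ 2 := by
        intro D hD
        obtain ⟨h3, h4, h5⟩ := mem_fd hD hY0
        have h6 := hcl D (K D) h3 h5 (hK D hD).1 (hK D hD).2
        rw [← mul_pow]
        refine pow_le_pow_left₀ (Nat.cast_nonneg _) (h6.trans ?_) 2
        exact mul_le_mul_of_nonneg_left h4 hC₁.le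
      refine (Finset.sum_le_sum h1).trans ?_
      rw [Finset.sum_const, nsmul_eq_mul]
      have h2 : ((fd Y).card : ℝ) ≤ |Y₀| := (card_fd hY0).trans (h.le.trans (le_abs_self _))
      calc ((fd Y).card : ℝ) * (C₁ ^ 2 * Y ^ 2) ≤ |Y₀| * (C₁ ^ 2 * Y ^ 2) :=
            mul_le_mul_of_nonneg_right h2 (by positivity)
        _ = (C₁ ^ 2 * |Y₀|) * Y ^ 2 := by ring
        _ ≤ B * Y ^ 2 := by
            refine mul_le_mul_of_nonneg_right ?_ (sq_nonneg Y)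
            have : 0 ≤ 2 * A₁ + 2 * A₂ ^ 2 := by positivity
            linarith
  refine ⟨B + Real.sqrt B, by positivity, fun Y hY K _ _ hK => ⟨?_, ?_⟩⟩
  · refine (h2nd Y hY K hK).trans ?_
    refine mul_le_mul_of_nonneg_right ?_ (sq_nonneg Y)
    linarith [Real.sqrt_nonneg B]
  · have hY0 : 0 ≤ Y := by linarith
    have h1 : (∑ D ∈ fd Y, (classNumber (K D) : ℝ)) ^ 2 ≤ B * Y ^ 3 := by
      refine (sq_sum_le_card_mul_sum_sq).trans ?_
      calc ((fd Y).card : ℝ) * ∑ D ∈ fd Y, (classNumber (K D) : ℝ) ^ 2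
          ≤ Y * (B * Y ^ 2) := by
            refine mul_le_mul (card_fd hY0) (h2nd Y hY K hK) ?_ hY0
            exact Finset.sum_nonneg fun _ _ => sq_nonneg _
        _ = B * Y ^ 3 := by ring
    have h2 : (Real.sqrt B * Y ^ (3 / 2 : ℝ)) ^ 2 = B * Y ^ 3 := by
      rw [mul_pow, Real.sq_sqrt hB0.le, ← Real.rpow_natCast (Y ^ (3 / 2 : ℝ)) 2,
        ← Real.rpow_mul hY0, ← Real.rpow_natCast Y 3]
      norm_num
    have h3 : ∑ D ∈ fd Y, (classNumber (K D) : ℝ) ≤ Real.sqrt B * Y ^ (3 / 2 : ℝ) := by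
      refine le_of_sq_le_sq (a := ∑ D ∈ fd Y, (classNumber (K D) : ℝ)) ?_ (by positivity)
      rw [h2]
      exact h1
    refine h3.trans ?_
    refine mul_le_mul_of_nonneg_right ?_ (by positivity)
    linarith

end Pool.Agent.H41.CFH
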